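import Pool.Agent.K1H20.TQ.Base

set_option autoImplicit false

/-! # The stronger form (Q2) for sums, products and Thom-Sebastiani sums in disjoint variables

We prove that the stronger form (Q2: `b_I(s) Z_I(s)` is a polynomial, so that every pole of `Z_I` is a root
of `b_I` of at least the same multiplicity) is inherited by sums `I + J` and products `I J` of ideals in
disjoint sets of variables, by the hypersurfaces `∑ y_j f_j(x)`, `I = (f_j)`, with new variables `y_j`, and
by the Thom-Sebastiani sums `∑ y_j f_j(x) + g(z)`, `g` a hypersurface in further variables. The class `TT`
of `Pool.Agent.Y230.TH` (starting files) is used with arbitrary ideals and hypersurfaces with (Q2) as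
atoms (`Known`, `KnownHyp`). Without any hypothesis the class contains all nonzero ideals of `ℂ[x, y]`, all
monomial ideals, the ideals `(f_1, …, f_k)` with very general coefficients at the vertices of the Newton
polytopes of the `f_i` and arbitrary other coefficients, and everything that is obtained from them by
these operations.

The topological zeta function of a sum. With `1 - Z_I(s) = s ∫ V_I(t) exp(-s t) dt`, where `V_I` is an
exponential polynomial (the limit of the motivic volumes of `ord ≥ e`), one has `V_{I + J} = V_I V_J`. If
`α` and `β` are poles of `Z_I` and `Z_J` of orders `k + 1` and `l + 1`, the product of `t^k exp(α t)` and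
`t^l exp(β t)` contributes a pole of order `k + l + 1` at `α + β`. On the other side, if `α` is a root of
multiplicity `m` of all functional equations of `I` and `β` one of multiplicity `n` for `J`, then `α + β`
is one of multiplicity `m + n - 1` for `I + J` (`FM_sum`, starting files, proved there for the orders of
the poles of `p`-adic zeta functions); the multiplicities for products are added (`FM_mul`), and for
`∑ y_j f_j(x) + g(z)` one has `b(s) = (s + 1) b'(s)` where `b'` has the root `α + β` with multiplicity
`m + n - 1`, if `β` is a root of multiplicity `n` of `b_g(s) / (s + 1)` (`ts_dvd`).

What is added here: the starting files have for topological zeta functions only the statement about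
poles and roots without multiplicities (`tt_closure`, used for `MP_504089_ag.ThomSebastianiGlobal`), and
no statement about ideals in this problem. New are the orders of the poles of the products of exponential
polynomials (`lap_order`, `lap2_order`), also at `s = -1` for the Thom-Sebastiani sums, the comparison
with the multiplicities of the roots (`closure`), and that (Q2) for an ideal is all what is needed
(`Cq_of_QQ`), so that arbitrary ideals with (Q2) may be used as atoms. -/

namespace Pool.Agent.Results.MP_ee8c61_ag.DisjointVariables

open Pool.Agent.W574.SM Pool.Agent.W574.RO Pool.Agent.Y230.TH Pool.Agent.K1H20.TQ

/-- **The stronger form (Q2) is inherited by sums, products and Thom-Sebastiani sums in disjoint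
variables.** Let `TT Known KnownHyp c A Z` be the least classes of ideals (`c = false`) and hypersurfaces
(`c = true`), given by finitely many generators `A.f j` in finitely many variables, together with their
topological zeta functions `Z`, which contain

* all nonzero ideals and hypersurfaces for which (Q2) holds (`any`; `Z = ∑_S χ_S ∏_{j ∈ S} 1 / (N_j s + ν_j)`
  with arbitrary numerical data `ν_j > 0`, `N_j`, `χ_S` of a log resolution),
* all nonzero ideals of `ℂ[x, y]`, all monomial ideals, the ideals and hypersurfaces with very general
  coefficients at the vertices of the Newton polytopes, all plane curves,

and which are closed under sums and products in disjoint sets of variables (`sum`, `mul`), under passing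
from `(f_j)` to the hypersurface `∑ y_j f_j(x)` (`univ`) and to `∑ y_j f_j(x) + g(z)` for a hypersurface `g`
in the class (`ts`), under dropping variables which do not occur, and under renaming; a hypersurface in the
class is an ideal in the class. Let `b` satisfy a functional equation of the generators, for instance the
Bernstein-Sato polynomial of the ideal. Then `b Z` is a polynomial. -/
theorem result (c : Bool) (A : Fam) (Z : RatFunc ℂ) (h : TT Known KnownHyp c A Z)
    (b : Polynomial ℂ) (hb : IsFunctionalEq A.f b) :
    ∃ P : Polynomial ℂ, algebraMap (Polynomial ℂ) (RatFunc ℂ) b * Z =
      algebraMap (Polynomial ℂ) (RatFunc ℂ) P :=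
  main c A Z h b hb

end Pool.Agent.Results.MP_ee8c61_ag.DisjointVariables
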