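import Pool.Agent.R779.HK.Main
import Pool.Agent.R852.SC.Poly

set_option autoImplicit false

/-! # Products of powers of Hankel determinantal ideals

Let `x_0, …, x_{N - 1}` be the coordinates of the affine space. The Hankel matrices of rank at most `d`
form a closed subset `Σ_d`, `2 d < N`, of dimension `2 d`: the affine cone over the variety of
`d`-secant `(d - 1)`-planes of the rational normal curve of degree `N - 1`. Its ideal `I_{d + 1}` is
generated by the maximal minors of the `(d + 1) × (N - d)` Hankel matrix `(x_{i + j})`, and also by the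
`(d + 1)`-minors of the other Hankel matrices in these variables which have at least `d + 1` rows and
columns (Gruson and Peskine). Let `p t`, `t ∈ T`, be numbers with `2 p t < N`, let `hankel N (p t) J` be
the maximal minors of the `p t × (N + 1 - p t)` Hankel matrix, which generate the ideal `I_{p t}`, and
let `I = ∏ t, I_{p t} ^ a t`, with the generators `prodFam`.

The resolution. Let `P` be the maximum of the `p t`, and let `Y` be obtained from the affine space by
blowing up `Σ_0 = {0}` and the strict transforms of `Σ_1, …, Σ_{P - 1}`, in this order. It is smooth,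
and the exceptional divisors `E_0, …, E_{P - 1}` cross normally (Bertram; Thaddeus; Vermeire). The
multiplicity of the Jacobian determinant along `E_d` is `ν_d - 1` with `ν_d = N - 2 d`, and `I_p` becomes
the ideal of the divisor `∑_{d < p} (p - d) E_d`. So `Y` is a log resolution of `I`, with the components
`E_d` of multiplicity `N_d = ∑ t, a t * max (p t - d, 0)` (`mult`; all `d < (N + 1) / 2` are listed, those
with `d ≥ P` have the multiplicity `0` and do not matter).

The roots of the Bernstein-Sato polynomial are taken from the starting file `Pool.Agent.R779.HK.Main`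
(`ideal_roots`), written there for the general forms over the ideals `I_{p t}`
(`MP_504089_ag.HankelDeterminantal`): all the `E_d` with `N_d > 0` are Rees divisors of `I`. New is the
convexity argument which gives the second question: `N_d` is a convex function of `d`, and since
`2 p t < N` its slope shows that the numbers `ν_d / N_d` are strictly increasing in `d`
(`ratio_lt`). So all the poles of `Z_I` are simple. -/

namespace Pool.Agent.Results.MP_ee8c61_ag.HankelIdeals

open Pool.Agent.W574.SM Pool.Agent.TH192.DT Pool.Agent.R779.HK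

/-- The numbers `ν_d = N - 2 d`. -/
def nu (N : ℕ) (d : Fin ((N + 1) / 2)) : ℕ := N - 2 * d

/-- The multiplicities `N_d = ∑ t, a t * max (p t - d, 0)` of the ideal. -/
def mult {T : Type} [Fintype T] (N : ℕ) (p a : T → ℕ) (d : Fin ((N + 1) / 2)) : ℕ :=
  ∑ t, a t * (p t - d)

section

variable {T : Type} [Fintype T]

/-- The numbers `ν_d / N_d` are strictly increasing. -/
theorem ratio_lt (N : ℕ) (p a : T → ℕ) (hp : ∀ t, 2 * p t < N) (d e : ℕ) (hde : d < e)
    (hpos : 0 < ∑ t, a t * (p t - e)) :
    (N - 2 * d) * ∑ t, a t * (p t - e) < (N - 2 * e) * ∑ t, a t * (p t - d) := by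
  rw [Finset.mul_sum, Finset.mul_sum]
  have key : ∀ t, (N - 2 * d) * (a t * (p t - e)) ≤ (N - 2 * e) * (a t * (p t - d)) ∧
      (a t * (p t - e) ≠ 0 →
        (N - 2 * d) * (a t * (p t - e)) < (N - 2 * e) * (a t * (p t - d))) := by
    intro t
    have h := hp t
    by_cases h1 : p t ≤ e
    · have h2 : p t - e = 0 := by omega
      rw [h2, mul_zero, mul_zero]
      exact ⟨Nat.zero_le _, fun h3 => absurd rfl h3⟩
    · obtain ⟨u, hu⟩ : ∃ u, p t = e + u := ⟨p t - e, by omega⟩
      obtain ⟨w, hw⟩ : ∃ w, e = d + w := ⟨e - d, by omega⟩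
      obtain ⟨v, hv⟩ : ∃ v, N = 2 * p t + v := ⟨N - 2 * p t, by omega⟩
      have e1 : p t - e = u := by omega
      have e2 : p t - d = u + w := by omega
      have e3 : N - 2 * d = 2 * (u + w) + v := by omega
      have e4 : N - 2 * e = 2 * u + v := by omega
      rw [e1, e2, e3, e4]
      have hw0 : 0 < w := by omega
      have hv0 : 0 < v := by omega
      have e5 : (2 * (u + w) + v) * u ≤ (2 * u + v) * (u + w) := by
        nlinarith [Nat.zero_le (v * w)]
      have e6 : (2 * (u + w) + v) * u < (2 * u + v) * (u + w) := by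
        nlinarith [Nat.mul_pos hv0 hw0]
      refine ⟨?_, fun h3 => ?_⟩
      · calc (2 * (u + w) + v) * (a t * u) = a t * ((2 * (u + w) + v) * u) := by ring
          _ ≤ a t * ((2 * u + v) * (u + w)) := Nat.mul_le_mul_left _ e5
          _ = _ := by ring
      · have ha : 0 < a t := Nat.pos_of_ne_zero fun h0 => h3 (by rw [h0, zero_mul])
        calc (2 * (u + w) + v) * (a t * u) = a t * ((2 * (u + w) + v) * u) := by ring
          _ < a t * ((2 * u + v) * (u + w)) := Nat.mul_lt_mul_of_pos_left e6 ha
          _ = _ := by ring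
  obtain ⟨t0, -, ht0⟩ := Finset.exists_ne_zero_of_sum_ne_zero hpos.ne'
  exact Finset.sum_lt_sum (fun t _ => (key t).1) ⟨t0, Finset.mem_univ _, (key t0).2 ht0⟩

end

/-- **Q1 and Q2 hold for `I = ∏ t, I_{p t} ^ a t`**, `I_p` the ideal of the `p`-minors of the Hankel
matrices in `N` variables, `2 p t < N`. Let `b` be a polynomial which satisfies a functional equation of
the generators of `I`, for instance the Bernstein-Sato polynomial of `I`. (1) All the numbers
`-(ν_d + l) / N_d`, `0 ≤ l < N_d`, are roots of `b`. (2) For `d ≠ e` with `N_d, N_e > 0` the numbers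
`ν_d / N_d` and `ν_e / N_e` are different. (3) Let `Z` be the topological zeta function of `I`, computed
on the resolution described above (with arbitrary integers `χ` in the place of the Euler
characteristics of the strata). Every pole of `Z` is a root of `b` (Q1), and `b Z` is a polynomial
(Q2). -/
theorem result {T : Type} [Fintype T] [DecidableEq T] (N : ℕ) (p a : T → ℕ)
    (hp : ∀ t, 2 * p t < N) (b : Polynomial ℂ)
    (hb : IsFunctionalEq (prodFam fun q : Σ t, Fin (a t) => hankel N (p q.1)) b) :
    (∀ (d : Fin ((N + 1) / 2)) (l : ℕ), l < mult N p a d →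
      b.eval (-((nu N d : ℂ) + l) / mult N p a d) = 0) ∧
    (∀ d e : Fin ((N + 1) / 2), d ≠ e → 0 < mult N p a d → 0 < mult N p a e →
      nu N d * mult N p a e ≠ nu N e * mult N p a d) ∧
    ∀ χ : Finset (Fin ((N + 1) / 2)) → ℤ,
      (∀ s₀ : ℂ, (topZ (nu N) (mult N p a) χ).denom.eval s₀ = 0 → b.eval s₀ = 0) ∧
      ∃ P : Polynomial ℂ, algebraMap (Polynomial ℂ) (RatFunc ℂ) b *
        topZ (nu N) (mult N p a) χ = algebraMap (Polynomial ℂ) (RatFunc ℂ) P := by
  have h1 : ∀ (d : Fin ((N + 1) / 2)) (l : ℕ), l < mult N p a d →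
      b.eval (-((nu N d : ℂ) + l) / mult N p a d) = 0 := fun d l hl =>
    ideal_roots N d p a hp b 1 (by simp) (isLocEq_of_isFunctionalEq hb) l hl
  have hν : ∀ d : Fin ((N + 1) / 2), 0 < nu N d := fun d => by
    have := d.2
    unfold nu
    omega
  have h2 : ∀ d e : Fin ((N + 1) / 2), d ≠ e → 0 < mult N p a d → 0 < mult N p a e →
      nu N d * mult N p a e ≠ nu N e * mult N p a d := by
    intro d e hde hd he
    rcases lt_or_gt_of_ne hde with h | h
    · exact (ratio_lt N p a hp d e h he).ne
    · exact (ratio_lt N p a hp e d h hd).ne'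
  have hr : ∀ d : Fin ((N + 1) / 2), 0 < mult N p a d →
      b.eval (-((nu N d : ℕ) : ℂ) / (mult N p a d : ℕ)) = 0 := by
    intro d hd
    have := h1 d 0 hd
    rwa [Nat.cast_zero, add_zero] at this
  refine ⟨h1, h2, fun χ => ⟨fun s₀ hs₀ => ?_, ?_⟩⟩
  · obtain ⟨J, _, d, _, hN, rfl⟩ := Pool.Agent.Y228.RR.pole_topZ' _ _ χ hν s₀ hs₀
    exact hr d hN
  · exact Pool.Agent.R852.SC.topZ_mul _ _ hν χ b hr fun J _ d _ e _ hde hd he => h2 d e hde hd he

end Pool.Agent.Results.MP_ee8c61_ag.HankelIdeals
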