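import Pool.Agent.K1H50.QC.DetTop

set_option autoImplicit false

/-! # Products of ideals of minors of transversal matrices of polynomials

Let `M_b`, `b ∈ B`, be matrices of polynomials in `ℂ[x_1, …, x_N]`, with arbitrary entries and of arbitrary
formats `m_b × n_b`. For `t ∈ T` let `I_t` be the ideal of the `p_t`-minors of `M_(β t)`, and let
`I = ∏ t, I_t ^ a t`, with the generators `prodFam`.

Suppose that the matrices are transversal to the varieties of matrices of given ranks, also jointly
(the loci `D_{b,d} = {x : rank M_b(x) ≤ d}` are smooth of codimension `(m_b - d) (n_b - d)` outside of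
`D_{b,d-1}`, and loci for different `b` cross transversally). For example this holds for matrices of
general linear forms, of general polynomials of any degrees, for `1 × n` matrices of equations of a
smooth complete intersection, for generic matrices, and for pull-backs of generic matrices by
submersions. Blow up all the `D_{b,0}`, then the strict transforms of the `D_{b,1}`, and so on. As for
generic matrices, one gets a log resolution of `I`, with the components `E_i` over (the components of)
the `D_{b,d}`, `b = γ i`, `d = δ i`, with `k_i + 1 = (m_b - d) (n_b - d)` and
`a_i = ∑_{β t = b} a_t max (p_t - d, 0)` (`mulDet`).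

For the generic matrix, the matrix of its own variables, this is in the starting library
(`DeterminantalIdeals`, `DeterminantalProducts`; one matrix). The new part: the entries are arbitrary
polynomials; there is no group acting and no scaling, and several matrices and sizes may be combined;
sizes `p_t = min (m, n)` are allowed if the other sizes are suitable (`GoodRank`). All that is used is one
point `x` for each `E_i` which occurs, at which `M_b` is transversal to the matrices of rank `d`
(`TransversalAt`) and at which the other matrices have large rank.

The proof. At `x` choose a `d`-minor `δ ≠ 0` of `M_b`. The minors of size `d + 1` which contain it are local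
equations `h` of `D_{b,d}`. Up to powers of `δ`, every `p_t`-minor is a polynomial in `h` with
coefficients in `ℂ[x]` and without terms of degree `< p_t - d`; the leading forms of those which contain
the rows and columns of `δ` are the `(p_t - d)`-minors of a generic `(m_b - d) × (n_b - d)` matrix
(`NN_special`). The logarithmic differentials of products of such minors have a one-dimensional kernel
at a partial identity matrix (`minor_kernel`), so that the joint cone of the ideals is big
(`block_cone`), and `E_i` is a Rees divisor of the product of the ideals (`big_chart`). The theorem on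
Rees divisors of the starting library gives the root. -/

namespace Pool.Agent.Results.MP_ee8c61_ag.TransversalDeterminantalIdeals

open MvPolynomial Pool.Agent.TH192.DT Pool.Agent.W574.SM Pool.Agent.K1H50.QC

/-- **Q1 for products of powers of ideals of minors of transversal matrices of polynomials, and Q2 if
the ratios differ.**

Let the components `E_i`, `i ∈ J`, of the log resolution lie over the loci of rank `≤ δ i` of the matrix
`M (γ i)`, where `δ i` is less than the numbers of rows and columns. Suppose that for every `E_i` which
occurs in a stratum with `χ S ≠ 0`, and with `a_i > 0`, the condition `GoodRank` holds: for some `t` with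
`β t = γ i`, `a t ≠ 0` we have `p t = δ i + 1` or `δ i < p t < min (m, n)`; and at some point `x` the
matrix `M (γ i)` is transversal to the matrices of rank `δ i`, and the other `M (β t)` have some
`p t`-minor which does not vanish. Let `b` satisfy a functional equation of the generators of
`I = ∏ t, I_t ^ a t`, in particular `b = b_I`, and let `Z` be the topological zeta function of `I`,
computed on the resolution described above (with arbitrary integers `χ` in the place of the Euler
characteristics of the strata).

Then every pole of `Z` is a root of `b`. If the numbers `(k_i + 1) / a_i` of the components which meet in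
a stratum with `χ S ≠ 0` are different, then `b Z` is a polynomial. -/
theorem result {σ T B J : Type} [Fintype σ] [DecidableEq σ] [Fintype T] [DecidableEq T]
    [DecidableEq B] [Fintype J] {m n : B → ℕ}
    (M : ∀ b, Matrix (Fin (m b)) (Fin (n b)) (MvPolynomial σ ℂ)) (β : T → B) (p a : T → ℕ)
    (hne : ∀ t, ∃ rc, minorsOf (M (β t)) (p t) rc ≠ 0) (γ : J → B) (δ : J → ℕ)
    (hδ : ∀ i, δ i < m (γ i) ∧ δ i < n (γ i)) (χ : Finset J → ℤ)
    (hE : ∀ i, 0 < mulDet β p a (γ i) (δ i) → (∃ S, χ S ≠ 0 ∧ i ∈ S) →
      GoodRank M β p a (γ i) (δ i))
    (b : Polynomial ℂ)
    (hb : IsFunctionalEq (prodFam fun q : Σ t, Fin (a t) => minorsOf (M (β q.1)) (p q.1)) b) :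
    (∀ s₀ : ℂ, (topZ (fun i => (m (γ i) - δ i) * (n (γ i) - δ i))
      (fun i => mulDet β p a (γ i) (δ i)) χ).denom.eval s₀ = 0 → b.eval s₀ = 0) ∧
    ((∀ S, χ S ≠ 0 → ∀ i ∈ S, ∀ j ∈ S, i ≠ j → 0 < mulDet β p a (γ i) (δ i) →
        0 < mulDet β p a (γ j) (δ j) →
        (m (γ i) - δ i) * (n (γ i) - δ i) * mulDet β p a (γ j) (δ j) ≠
          (m (γ j) - δ j) * (n (γ j) - δ j) * mulDet β p a (γ i) (δ i)) →
      ∃ P : Polynomial ℂ, algebraMap (Polynomial ℂ) (RatFunc ℂ) b *
        topZ (fun i => (m (γ i) - δ i) * (n (γ i) - δ i))
          (fun i => mulDet β p a (γ i) (δ i)) χ = algebraMap (Polynomial ℂ) (RatFunc ℂ) P) :=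
  ideal_rees (fun t => minorsOf (M (β t)) (p t)) a _ _
    (fun i => Nat.mul_pos (Nat.sub_pos_of_lt (hδ i).1) (Nat.sub_pos_of_lt (hδ i).2)) χ
    (fun i hi hJ => (hE i hi hJ).rees M β p a hne (γ i) (δ i)) b hb

end Pool.Agent.Results.MP_ee8c61_ag.TransversalDeterminantalIdeals
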