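import Pool.Agent.K1H50.QC.DetTop

set_option autoImplicit false

/-! # Topological zeta functions of products of ideals with big weighted tangent cones

Let `g t j ∈ ℂ[x_i]`, `t ∈ T`, be generators of ideals `I_t ≠ 0` (in any number of variables), and let
`I = ∏ t, I_t ^ a t`, with the generators `prodFam`. Let `Y` be a log resolution of `I`, with the
components `E_i`, `i ∈ J`, `ν i = k_i + 1`, `N i` the order of `I` along `E_i`.

The starting hand-in `ReesDivisors` has Q1 under the condition that the `E_i` are Rees divisors of the
ideal. In this form it is a condition on the formal charts of the resolution. The new part here is a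
criterion in terms of leading forms, which needs no chart, no homogeneity of the ideals and no linear
or product structure, and which is invariant under transversal pull-backs.

**The criterion** (`BigConeOn`). Let `Z = {h_1 = ⋯ = h_ν = 0}` be a germ at `p` of a smooth variety of
codimension `ν`, and give `h_r` the weight `w_r ≥ 1`. Near `p` every generator is a sum
`g_{t,j} = ∑_d c_d(x) h ^ d` (up to a factor `u`, `u(p) ≠ 0`) over exponents `d` with `w · d ≥ m_t`, and it
has the leading form `G_{t,j}(Y) = ∑_{w · d = m_t} c_d(p) Y ^ d` at `p`. The joint cone of the ideals is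
big if for each `t` some `G_{t,j} ≠ 0` and if the products `∏_{t : a t ≠ 0} G_{t,e(t)}(Y)` contain `ν`
algebraically independent ones (Jacobian determinant `≠ 0`). Then the exceptional divisor `E` of the
weighted blow-up of `Z` is a Rees divisor of `∏_{a t ≠ 0} I_t`, with `k_E + 1 = ∑ w_r` and the orders
`m_t` (`big_chart`; for `gcd(w) = 1` these are the numbers of the divisor `E`, in general they are
multiples of them, with the same quotients).

Examples. (a) All weights `1`, `Z` smooth, and ideals `I_t` which are near a point of `Z` the powers
`I(Z) ^ (m_t)`. (b) Facets of the Newton polyhedra of the product of the ideals in any system of local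
coordinates `h` (the leading forms are the parts of the `g_{t,j}` on the facet; the facet need not be
compact, and the coefficients may depend on the point of `Z`). (c) Semi-quasi-homogeneous ideals: the
`g_{t,j}` have weighted initial forms of the degree `m_t`, `ν` of them without a common zero outside
the origin; all other terms are of higher weight and arbitrary. (d) All transversal pull-backs of
these, by part (2). -/

namespace Pool.Agent.Results.MP_ee8c61_ag.WeightedTangentConeIdeals

open MvPolynomial Pool.Agent.TH192.DT Pool.Agent.W574.SM Pool.Agent.K1H50.QC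

/-- **Q1 for `I = ∏ t, I_t ^ a t` (and Q2 if the ratios differ), if the exceptional divisors come from
weighted blow-ups with big joint cones.**

(1) Suppose that for every `E_i` with `N_i > 0` which occurs in a stratum with `χ S ≠ 0` the number
`ν_i / N_i` comes from a big cone (`FromCone`): there are a point `p`, a smooth germ `Z` at `p` with
weighted equations `h_r` of weights `w_r` for which the joint cone of the ideals `I_t`, `a t ≠ 0`, is
big, with the orders `m_t`, and exponents `α_r` with `∑ w_r α_r < N = ∑ a_t m_t`, such that
`ν_i / N_i = (∑ w_r (α_r + 1)) / N` (if `E_i` itself is the divisor of the weighted blow-up, this holds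
with `α = 0`). Let `b` satisfy a functional equation of the generators of `I`, in particular `b = b_I`,
and let `Z` be the topological zeta function of `I`, computed on the resolution (with arbitrary
integers `χ` in the place of the Euler characteristics of the strata). Then every pole of `Z` is a root
of `b`; and if the numbers `ν_i / N_i` of the components which meet in a stratum with `χ S ≠ 0` are
different, then `b Z` is a polynomial.

(2) The condition is invariant under transversal pull-backs: let `φ` be a polynomial map with
`φ(q) = p` such that the differentials at `q` of the functions `h_r ∘ φ` are linearly independent (`φ` is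
transversal to `Z` at `q`). If the joint cone of the `g_{t,j}` for the equations `h_r` is big at `p`, then
the one of the `g_{t,j} ∘ φ` for the `h_r ∘ φ` is big at `q`, with the same weights and orders. -/
theorem result :
    (∀ {σ T J : Type} [Fintype σ] [DecidableEq σ] [Fintype T] [DecidableEq T] [Fintype J]
      {κ : T → Type} [∀ t, Fintype (κ t)] [∀ t, DecidableEq (κ t)]
      (g : (t : T) → κ t → MvPolynomial σ ℂ) (a : T → ℕ) (ν N : J → ℕ) (_ : ∀ i, 0 < ν i)
      (χ : Finset J → ℤ)
      (_ : ∀ i, 0 < N i → (∃ S, χ S ≠ 0 ∧ i ∈ S) → FromCone g a 1 (ν i) (N i))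
      (b : Polynomial ℂ) (_ : IsFunctionalEq (prodFam fun q : Σ t, Fin (a t) => g q.1) b),
      (∀ s₀ : ℂ, (topZ ν N χ).denom.eval s₀ = 0 → b.eval s₀ = 0) ∧
      ((∀ S, χ S ≠ 0 → ∀ i ∈ S, ∀ j ∈ S, i ≠ j → 0 < N i → 0 < N j → ν i * N j ≠ ν j * N i) →
        ∃ P : Polynomial ℂ, algebraMap (Polynomial ℂ) (RatFunc ℂ) b * topZ ν N χ =
          algebraMap (Polynomial ℂ) (RatFunc ℂ) P)) ∧
    ∀ {σ σ' T ρ : Type} [Fintype σ] [DecidableEq σ] [Fintype σ'] [DecidableEq σ'] [Fintype T]
      [DecidableEq T] {κ : T → Type} [∀ t, Fintype (κ t)] [∀ t, DecidableEq (κ t)] [Fintype ρ]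
      [DecidableEq ρ] (g : (t : T) → κ t → MvPolynomial σ ℂ) (A : Finset T) (w : ρ → ℕ)
      (m : T → ℕ) (p : σ → ℂ) (h : ρ → MvPolynomial σ ℂ) (φ : σ → MvPolynomial σ' ℂ) (q : σ' → ℂ),
      BigConeOn g A w m p h → (∀ i, eval q (φ i) = p i) →
      (LinearIndependent ℂ fun (r : ρ) (i : σ') => eval q (pderiv i (aeval φ (h r)))) →
      BigConeOn (fun t j => aeval φ (g t j)) A w m q (fun r => aeval φ (h r)) :=
  ⟨fun g a ν N hν χ hE b hb => ideal_rees g a ν N hν χ (fun i hi hJ => (hE i hi hJ).rees) b hb,
   fun _ _ _ _ _ _ φ q hp hq hli => hp.pullback φ q hq hli⟩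

end Pool.Agent.Results.MP_ee8c61_ag.WeightedTangentConeIdeals
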